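import Pool.Agent.H63.UC.Base

set_option autoImplicit false
open Pool.Agent.H75.Perc Pool.Agent.H7.UC

/-! D1: cycles of `U` are boundaries. -/

namespace Pool.Agent.H63.UC

/-- parity of `x` along the ray to the right of the face `f`, up to the column `N` -/
noncomputable def ray (x : Ed → ZMod 2) (N : ℤ) (f : Fc) : ZMod 2 :=
  ∑ m ∈ Finset.Ico f.1 N, x (m, f.2, 0)

theorem ray_succ (x : Ed → ZMod 2) (N : ℤ) (hN : ∀ i j k, N ≤ i → x (i, j, k) = 0) (i j : ℤ) :
    ray x N (i, j) = x (i, j, 0) + ray x N (i + 1, j) := by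
  unfold ray
  by_cases h : i < N
  · rw [← Finset.insert_Ico_add_one_left_eq_Ico h, Finset.sum_insert (by simp)]
  · rw [Finset.Ico_eq_empty h, Finset.Ico_eq_empty (by simp; omega)]
    simp only [Finset.sum_empty, add_zero]
    exact (hN i j 0 (by omega)).symm

theorem ray_big (x : Ed → ZMod 2) (N i j : ℤ) (h : N ≤ i) : ray x N (i, j) = 0 := by
  unfold ray
  rw [Finset.Ico_eq_empty (by simp; omega), Finset.sum_empty]

theorem ray_two (x : Ed → ZMod 2) (N : ℤ) (hN : ∀ i j k, N ≤ i → x (i, j, k) = 0)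
    (hx : ∀ v, dv x v = 0) (i j : ℤ) : ray x N (i, j + 1) + ray x N (i, j) = x (i, j, 2) := by
  -- downward induction on `i`
  have key : ∀ n : ℕ, ∀ i j : ℤ, N - i ≤ n → ray x N (i, j + 1) + ray x N (i, j) = x (i, j, 2) := by
    intro n
    induction n with
    | zero =>
      intro i j h
      rw [ray_big x N i _ (by simpa using h), ray_big x N i _ (by simpa using h),
        hN i j 2 (by simpa using h), add_zero]
    | succ n ih =>
      intro i j h
      have h1 := ih (i + 1) j (by push_cast at h; omega)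
      rw [ray_succ x N hN i (j + 1), ray_succ x N hN i j]
      have h2 := hx (i, j, false)
      have h3 := hx (i, j, true)
      simp only [dv, ed] at h2 h3
      have h4 : x (i, j + 1, 0) + ray x N (i + 1, j + 1) + (x (i, j, 0) + ray x N (i + 1, j)) +
          x (i, j, 2) = 0 := by
        calc _ = (ray x N (i + 1, j + 1) + ray x N (i + 1, j)) + (x (i, j + 1, 0) + x (i, j, 0) +
              x (i, j, 2)) := by ring
          _ = x (i + 1, j, 2) + (x (i, j + 1, 0) + x (i, j, 0) + x (i, j, 2)) +
              (x (i, j, 1) + x (i, j, 1)) := by rw [h1, z2, add_zero]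
          _ = (x (i, j, 0) + x (i, j, 1) + x (i, j, 2)) +
              (x (i, j + 1, 0) + x (i, j, 1) + x (i + 1, j, 2)) := by ring
          _ = 0 := by rw [h2, h3, add_zero]
      exact z2_eq h4
  exact key (N - i).toNat i j (Int.self_le_toNat _)

theorem ray_bd (x : Ed → ZMod 2) (N : ℤ) (hN : ∀ i j k, N ≤ i → x (i, j, k) = 0)
    (hx : ∀ v, dv x v = 0) (e : Ed) : x e = ray x N (lf e) + ray x N (rf e) := by
  obtain ⟨i, j, k⟩ := e
  have h0 := ray_succ x N hN i j
  have h2 := ray_two x N hN hx i j
  have h3 := hx (i, j, false)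
  simp only [dv, ed] at h3
  fin_cases k
  · show x (i, j, 0) = ray x N (i, j) + ray x N (i + 1, j)
    rw [h0, add_assoc, z2, add_zero]
  · show x (i, j, 1) = ray x N (i + 1, j) + ray x N (i, j + 1)
    apply z2_eq
    have e1 : ray x N (i + 1, j) = x (i, j, 0) + ray x N (i, j) := by
      rw [h0, ← add_assoc, z2, zero_add]
    have e2 : ray x N (i, j + 1) = x (i, j, 2) + ray x N (i, j) := by
      rw [← h2, add_assoc, z2, add_zero]
    rw [e1, e2]
    calc _ = (x (i, j, 0) + x (i, j, 1) + x (i, j, 2)) + (ray x N (i, j) + ray x N (i, j)) := by ring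
      _ = 0 := by rw [h3, z2, add_zero]
  · show x (i, j, 2) = ray x N (i, j + 1) + ray x N (i, j)
    exact h2.symm

/-- a column to the right of `U` -/
theorem exists_col (U : Finset Fc) : ∃ N : ℤ, ∀ f ∈ U, f.1 < N := by
  induction U using Finset.induction_on with
  | empty => exact ⟨0, by simp⟩
  | insert a s _ ih =>
    obtain ⟨N, hN⟩ := ih
    refine ⟨max N (a.1 + 1), fun f hf => ?_⟩
    rcases Finset.mem_insert.1 hf with rfl | hf
    · exact lt_of_lt_of_le (lt_add_one _) (le_max_right _ _)
    · exact lt_of_lt_of_le (hN f hf) (le_max_left _ _)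

theorem lf_col (i j : ℤ) (k : Fin 3) : i ≤ (lf (i, j, k)).1 ∧ i ≤ (rf (i, j, k)).1 := by
  fin_cases k <;> simp [lf, rf, fc]

theorem d1 : D1 := by
  intro U hU x hx hc
  obtain ⟨N, hN⟩ := exists_col U
  have hN' : ∀ i j k, N ≤ i → x (i, j, k) = 0 := by
    intro i j k h
    by_contra hne
    have h1 := lf_col i j k
    rcases hx _ hne with h2 | h2
    · have := hN _ h2; omega
    · have := hN _ h2; omega
  have hb := ray_bd x N hN' hc
  -- `ray` vanishes outside `U`
  have hout : ∀ f, f ∉ U → ray x N f = 0 := by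
    intro f hf
    have hg : ((N, f.2) : Fc) ∉ U := fun h => by have := hN _ h; simp at this
    have hp := hU.cconn (N, f.2) hg f hf
    have h0 : ray x N (N, f.2) = 0 := ray_big x N N f.2 le_rfl
    have key : ∀ a b : Fc, a ∉ U → b ∉ U → adjF a b → ray x N a = ray x N b := by
      intro a b ha hb' ⟨e, he⟩
      have hz : x e = 0 := by
        by_contra hne
        have := hx e hne
        unfold inE at this
        rcases he with ⟨rfl, rfl⟩ | ⟨rfl, rfl⟩ <;> tauto
      have h1 := hb e
      rw [hz] at h1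
      have h2 := z2_eq h1.symm
      rcases he with ⟨rfl, rfl⟩ | ⟨rfl, rfl⟩
      · exact h2
      · exact h2.symm
    have hind : ∀ b, Relation.ReflTransGen (fun a b => b ∉ U ∧ adjF a b) ((N, f.2) : Fc) b →
        b ∉ U ∧ ray x N b = 0 := by
      intro b hb'
      induction hb' with
      | refl => exact ⟨hg, h0⟩
      | tail _ h2 ih => exact ⟨h2.1, by rw [← key _ _ ih.1 h2.1 h2.2]; exact ih.2⟩
    exact (hind f hp).2
  classical
  refine ⟨U.filter (fun f => ray x N f = 1), Finset.filter_subset _ _, fun e => ?_⟩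
  have hi : ∀ f, ind (↑(U.filter (fun f => ray x N f = 1)) : Set Fc) f = ray x N f := by
    intro f
    by_cases hf : f ∈ U
    · rcases z2_or (ray x N f) with h | h
      · rw [h]; apply ind_of_not_mem; simp [h]
      · rw [h]; apply ind_of_mem; simp [h, hf]
    · rw [hout f hf]; apply ind_of_not_mem; simp [hf]
  unfold bd
  rw [hi, hi]
  exact hb e

/-- connectedness of `U`: a set of faces with no inner boundary edge is empty or all of `U`. -/
theorem const_of_inner (U s : Finset Fc) (hU : IsDom U) (hs : s ⊆ U)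
    (h : ∀ e, inI U e → bd (↑s : Set Fc) e = 0) : s = ∅ ∨ s = U := by
  classical
  rcases s.eq_empty_or_nonempty with h0 | ⟨f, hf⟩
  · exact Or.inl h0
  right
  apply Finset.Subset.antisymm hs
  intro g hg
  have hp := hU.conn f (hs hf) g hg
  have hind : ∀ b, Relation.ReflTransGen (fun a b => b ∈ U ∧ adjF a b) f b → b ∈ U ∧ b ∈ s := by
    intro b hb
    induction hb with
    | refl => exact ⟨hs hf, hf⟩
    | tail _ h2 ih =>
      rename_i a b _
      refine ⟨h2.1, ?_⟩
      obtain ⟨e, he⟩ := h2.2
      have hI : inI U e := by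
        rcases he with ⟨rfl, rfl⟩ | ⟨rfl, rfl⟩
        · exact ⟨ih.1, h2.1⟩
        · exact ⟨h2.1, ih.1⟩
      have h3 := z2_eq (h e hI)
      have h4 : ind (↑s : Set Fc) a = ind (↑s : Set Fc) b := by
        rcases he with ⟨rfl, rfl⟩ | ⟨rfl, rfl⟩
        · exact h3
        · exact h3.symm
      rw [ind_of_mem (Finset.mem_coe.2 ih.2)] at h4
      exact Finset.mem_coe.1 (ind_eq_one.1 h4.symm)
  exact (hind g hp).2

theorem d1b : D1b := by
  intro U hU x hx hc
  obtain ⟨s, hs, hb⟩ := d1 U hU x (fun e he => isB_inE (hx e he)) hc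
  have h0 : ∀ e, inI U e → bd (↑s : Set Fc) e = 0 := by
    intro e he
    rw [← hb e]
    by_contra hne
    exact ((isB_iff U e).1 (hx e hne)).2 he
  rcases const_of_inner U s hU hs h0 with rfl | rfl
  · left
    intro e
    rw [hb e, Finset.coe_empty, bd_empty]
  · right
    intro e he
    rw [hb e, bd_self_isB he]

end Pool.Agent.H63.UC
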