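import Pool.Agent.H63.UC.MD1

set_option autoImplicit false
open Pool.Agent.H75.Perc Pool.Agent.H7.UC

/-! D1c: chains between two vertices of `U`, reference chains, independence of the reference chain. -/

namespace Pool.Agent.H63.UC

/-- `c` is a chain in `U` with end points `v`, `w` -/
def IsLk (U : Finset Fc) (v w : Vx) (c : Ed → ZMod 2) : Prop :=
  (∀ e, c e ≠ 0 → inE U e) ∧ ∀ x, dv c x = ind {v} x + ind {w} x

def Lk (U : Finset Fc) (v w : Vx) : Prop := ∃ c, IsLk U v w c

theorem Lk.refl (U : Finset Fc) (v : Vx) : Lk U v v :=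
  ⟨fun _ => 0, fun _ h => absurd rfl h, fun x => by rw [dv_zero, z2]⟩

theorem Lk.symm {U : Finset Fc} {v w : Vx} (h : Lk U v w) : Lk U w v := by
  obtain ⟨c, h1, h2⟩ := h
  exact ⟨c, h1, fun x => by rw [h2, add_comm]⟩

theorem supp_add {U : Finset Fc} {c d : Ed → ZMod 2} (hc : ∀ e, c e ≠ 0 → inE U e)
    (hd : ∀ e, d e ≠ 0 → inE U e) (e : Ed) (he : c e + d e ≠ 0) : inE U e := by
  by_cases h1 : c e = 0
  · by_cases h2 : d e = 0
    · exact absurd (by simp [h1, h2]) he
    · exact hd e h2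
  · exact hc e h1

theorem Lk.trans {U : Finset Fc} {u v w : Vx} (h : Lk U u v) (h' : Lk U v w) : Lk U u w := by
  obtain ⟨c, h1, h2⟩ := h
  obtain ⟨d, h3, h4⟩ := h'
  refine ⟨fun e => c e + d e, supp_add h1 h3, fun x => ?_⟩
  rw [dv_add, h2, h4]
  calc _ = ind {u} x + ind {w} x + (ind {v} x + ind {v} x) := by ring
    _ = _ := by rw [z2, add_zero]

theorem nb_eq_iff (v w : Vx) (k : Fin 3) : v = nb w k ↔ w = nb v k := by
  constructor
  · rintro rfl; exact (nb_nb w k).symm
  · rintro rfl; exact (nb_nb v k).symm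

/-- the chain of one edge -/
theorem dv_single (v : Vx) (k : Fin 3) (x : Vx) : dv (ind {ed v k}) x = ind {v} x + ind {nb v k} x := by
  rw [dv_eq _ x k]
  have h1 : ind {ed v k} (ed x (k + 1)) = 0 := by
    apply ind_singleton_ne
    intro h
    exact absurd ((ed_eq_iff _ _ _ _).1 h).1 (f1ne k)
  have h2 : ind {ed v k} (ed x (k + 2)) = 0 := by
    apply ind_singleton_ne
    intro h
    exact absurd ((ed_eq_iff _ _ _ _).1 h).1 (f2ne k)
  rw [h1, h2, add_zero, add_zero]
  by_cases hx : x = v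
  · subst hx
    rw [ind_singleton_self, ind_singleton_self, ind_singleton_ne (nb_ne x k).symm, add_zero]
  · by_cases hy : x = nb v k
    · rw [ind_singleton_ne hx, hy, ind_singleton_self, ed_nb, ind_singleton_self, zero_add]
    · rw [ind_singleton_ne hx, ind_singleton_ne hy, ind_singleton_ne, add_zero]
      intro h
      rcases ((ed_eq_iff x v k k).1 h).2 with h3 | h3
      · exact hx h3.symm
      · exact hy ((nb_eq_iff v x k).1 h3)

theorem lk_edge {U : Finset Fc} {v : Vx} {k : Fin 3} (h : inE U (ed v k)) : Lk U v (nb v k) := by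
  refine ⟨ind {ed v k}, fun e he => ?_, dv_single v k⟩
  by_cases h1 : e = ed v k
  · rw [h1]; exact h
  · exact absurd (ind_singleton_ne h1) he

theorem lk_step {U : Finset Fc} {v : Vx} {k : Fin 3} (h : fc v k ∈ U) : Lk U v (nb v (k + 1)) := by
  apply lk_edge
  rw [inE_ed, f12]
  exact Or.inr h

theorem fc_step (v : Vx) (k : Fin 3) : fc (nb v (k + 1)) (k + 2) = fc v k := by
  have := fc_nb1 v (k + 1)
  rwa [f11, f12] at this

/-- the up vertex of a face -/
def up (f : Fc) : Vx := (f.1, f.2, false)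

theorem lk_up {U : Finset Fc} (v : Vx) (k : Fin 3) (h : fc v k ∈ U) : Lk U v (up (fc v k)) := by
  -- one step of the walk around the face
  have st : ∀ (v : Vx) (k : Fin 3), fc v k ∈ U → Lk U (nb v (k + 1)) (up (fc (nb v (k + 1)) (k + 2))) →
      Lk U v (up (fc v k)) := by
    intro v k h h'
    rw [fc_step] at h'
    exact (lk_step h).trans h'
  have hs : ∀ (v : Vx) (k : Fin 3), fc v k ∈ U → fc (nb v (k + 1)) (k + 2) ∈ U := by
    intro v k h
    rw [fc_step]; exact h
  have c1 : ∀ i j : ℤ, Lk U (i, j, false) (up (fc (i, j, false) 1)) := fun i j => Lk.refl U _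
  have c2 : ∀ i j : ℤ, fc (i, j, true) 2 ∈ U → Lk U (i, j, true) (up (fc (i, j, true) 2)) :=
    fun i j h => st _ _ h (c1 i (j + 1))
  have c3 : ∀ i j : ℤ, fc (i, j, false) 0 ∈ U → Lk U (i, j, false) (up (fc (i, j, false) 0)) :=
    fun i j h => st _ _ h (c2 i j (hs (i, j, false) 0 h))
  have c4 : ∀ i j : ℤ, fc (i, j, true) 1 ∈ U → Lk U (i, j, true) (up (fc (i, j, true) 1)) :=
    fun i j h => st _ _ h (c3 (i + 1) j (hs (i, j, true) 1 h))
  have c5 : ∀ i j : ℤ, fc (i, j, false) 2 ∈ U → Lk U (i, j, false) (up (fc (i, j, false) 2)) :=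
    fun i j h => st _ _ h (c4 i (j - 1) (hs (i, j, false) 2 h))
  have c6 : ∀ i j : ℤ, fc (i, j, true) 0 ∈ U → Lk U (i, j, true) (up (fc (i, j, true) 0)) :=
    fun i j h => st _ _ h (c5 i j (hs (i, j, true) 0 h))
  obtain ⟨i, j, b⟩ := v
  cases b <;> fin_cases k
  · exact c3 i j h
  · exact c1 i j
  · exact c5 i j h
  · exact c6 i j h
  · exact c4 i j h
  · exact c2 i j h

theorem lk_adj {U : Finset Fc} {f g : Fc} (hf : f ∈ U) (hg : g ∈ U) (h : adjF f g) :
    Lk U (up f) (up g) := by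
  obtain ⟨e, he⟩ := h
  have key : ∀ e : Ed, lf e ∈ U → rf e ∈ U → Lk U (up (lf e)) (up (rf e)) := by
    intro e h1 h2
    exact (lk_up _ _ h1).symm.trans (lk_up _ _ h2)
  rcases he with ⟨rfl, rfl⟩ | ⟨rfl, rfl⟩
  · exact key e hf hg
  · exact (key e hg hf).symm

theorem lk_faces {U : Finset Fc} (hU : IsDom U) {f g : Fc} (hf : f ∈ U) (hg : g ∈ U) :
    Lk U (up f) (up g) := by
  have hp := hU.conn f hf g hg
  have hind : ∀ b, Relation.ReflTransGen (fun a b => b ∈ U ∧ adjF a b) f b →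
      b ∈ U ∧ Lk U (up f) (up b) := by
    intro b hb
    induction hb with
    | refl => exact ⟨hf, Lk.refl U _⟩
    | tail _ h2 ih => exact ⟨h2.1, ih.2.trans (lk_adj ih.1 h2.1 h2.2)⟩
  exact (hind g hp).2

/-- any two vertices of `U` are the end points of a chain in `U` -/
theorem lk_of_inV {U : Finset Fc} (hU : IsDom U) {v w : Vx} (hv : inV U v) (hw : inV U w) :
    Lk U v w := by
  obtain ⟨k, hk⟩ := hv
  obtain ⟨l, hl⟩ := hw
  exact (lk_up v k hk).trans ((lk_faces hU hk hl).trans (lk_up w l hl).symm)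

theorem inV_mark {U : Finset Fc} {n : ℕ} [NeZero n] (M : Marks U n) (j : Fin n) : inV U (M.u j) := by
  obtain ⟨k, hk, _⟩ := M.out j
  exact ⟨k, hk⟩

theorem exists_ref {U : Finset Fc} (hU : IsDom U) (M : Marks U 3) {v : Vx} (hv : inV U v) :
    ∃ c, IsRef M v c := by
  obtain ⟨c, h1, h2⟩ := lk_of_inV hU hv (inV_mark M 0)
  obtain ⟨d, h3, h4⟩ := lk_of_inV hU (inV_mark M 1) (inV_mark M 2)
  refine ⟨fun e => c e + d e, supp_add h1 h3, fun w => ?_⟩
  rw [dv_add, h2, h4]
  ring

/-- two reference chains differ by the boundary of a set of faces -/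
theorem ref_diff {U : Finset Fc} (hU : IsDom U) (M : Marks U 3) {v : Vx} {c c' : Ed → ZMod 2}
    (hc : IsRef M v c) (hc' : IsRef M v c') : ∃ s : Finset Fc, s ⊆ U ∧ ∀ e, c e + c' e = bd ↑s e :=
  d1 U hU (fun e => c e + c' e) (supp_add hc.supp hc'.supp)
    (fun w => by rw [dv_add, hc.dv, hc'.dv, z2])

open Classical in
/-- uniform subsets are invariant under symmetric difference with a fixed subset -/
theorem Pr_shift {α : Type*} [DecidableEq α] (U s : Finset α) (hs : s ⊆ U) (F : Finset α → Prop) :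
    Pr U (fun ω => F (symmDiff s ω)) = Pr U F := by
  unfold Pr
  congr 1
  norm_cast
  have hsub : ∀ ω, ω ⊆ U → symmDiff s ω ⊆ U := by
    intro ω hω x hx
    rcases Finset.mem_symmDiff.1 hx with ⟨h, _⟩ | ⟨h, _⟩
    · exact hs h
    · exact hω h
  apply Finset.card_bij' (fun ω _ => symmDiff s ω) (fun ω _ => symmDiff s ω)
  · intro ω hω
    rw [Finset.mem_filter, Finset.mem_powerset] at hω ⊢
    exact ⟨hsub _ hω.1, hω.2⟩
  · intro ω hω
    rw [Finset.mem_filter, Finset.mem_powerset] at hω ⊢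
    exact ⟨hsub _ hω.1, by rw [symmDiff_symmDiff_cancel_left]; exact hω.2⟩
  · intro ω _
    exact symmDiff_symmDiff_cancel_left _ _
  · intro ω _
    exact symmDiff_symmDiff_cancel_left _ _

theorem bd_shift (s ω : Finset Fc) (e : Ed) : bd (↑(symmDiff s ω) : Set Fc) e = bd ↑s e + bd ↑ω e := by
  rw [Finset.coe_symmDiff, bd_symmDiff]

/-- change of the reference chain, for any event of the chain `ξ` -/
theorem Pr_ref {U : Finset Fc} (hU : IsDom U) (M : Marks U 3) {v : Vx} {c c' : Ed → ZMod 2}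
    (hc : IsRef M v c) (hc' : IsRef M v c') (F : (Ed → ZMod 2) → Prop) :
    Pr U (fun ω => F (fun e => c e + bd (↑ω : Set Fc) e)) =
      Pr U (fun ω => F (fun e => c' e + bd (↑ω : Set Fc) e)) := by
  obtain ⟨s, hs, hsb⟩ := ref_diff hU M hc hc'
  rw [← Pr_shift U s hs (fun ω => F (fun e => c e + bd (↑ω : Set Fc) e))]
  apply Pr_congr
  intro ω _
  have : (fun e => c e + bd (↑(symmDiff s ω) : Set Fc) e) = fun e => c' e + bd (↑ω : Set Fc) e := by
    funext e
    rw [bd_shift, ← hsb e]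
    calc _ = (c e + c e) + (c' e + bd (↑ω : Set Fc) e) := by ring
      _ = _ := by rw [z2, zero_add]
  rw [this]

theorem d1c : D1c := by
  intro U M hU v hv
  refine ⟨exists_ref hU M hv, fun c c' hc hc' k j => ?_⟩
  exact Pr_ref hU M hc hc' (fun x => SConn x v k (M.u j))

end Pool.Agent.H63.UC
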