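import Pool.Agent.H63.UC.MD1

set_option autoImplicit false
open Pool.Agent.H75.Perc Pool.Agent.H7.UC

/-! D2: planarity.  Also the structure lemma which gives the set of faces `s` and the constant colour. -/

namespace Pool.Agent.H63.UC

/-- `Col s U v t` : all faces of `U` at `v` have the colour `t` in `s` -/
def Col (s U : Finset Fc) (v : Vx) (t : ZMod 2) : Prop := ∀ k, fc v k ∈ U → ind (↑s : Set Fc) (fc v k) = t

theorem fin3_third {k l : Fin 3} (h : k ≠ l) :
    (k = l + 1 ∧ l = k + 2) ∨ (k = l + 2 ∧ l = k + 1) := by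
  revert h; revert k l; decide

/-- at a vertex without edges of `x = bd s` other than boundary edges all the faces of `U` have
the same colour -/
theorem col_const {U s : Finset Fc} (v : Vx)
    (h : ∀ k, inI U (ed v k) → bd (↑s : Set Fc) (ed v k) = 0) (k l : Fin 3)
    (hk : fc v k ∈ U) (hl : fc v l ∈ U) : ind (↑s : Set Fc) (fc v k) = ind (↑s : Set Fc) (fc v l) := by
  by_cases hkl : k = l
  · rw [hkl]
  · rcases fin3_third hkl with ⟨h1, h2⟩ | ⟨h1, h2⟩
    · -- `l = k + 2`, `k = (k+1) + 2`, `l = (k+1) + 1`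
      have e1 : (k + 1) + 1 = l := by rw [h2, f11]
      have e2 : (k + 1) + 2 = k := f12 k
      have h3 := h (k + 1) ((inI_ed U v _).2 (by rw [e1, e2]; exact ⟨hl, hk⟩))
      rw [bd_ed, e1, e2] at h3
      exact (z2_eq h3).symm
    · have e1 : (k + 2) + 1 = k := f21 k
      have e2 : (k + 2) + 2 = l := by rw [h2, f22]
      have h3 := h (k + 2) ((inI_ed U v _).2 (by rw [e1, e2]; exact ⟨hk, hl⟩))
      rw [bd_ed, e1, e2] at h3
      exact z2_eq h3

/-- Structure: `C` boundary chain, `P` chain with the same end points. -/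
theorem d2_struct (U : Finset Fc) (hU : IsDom U) (C P : Ed → ZMod 2) (hC : ∀ e, C e ≠ 0 → isB U e)
    (hP : ∀ e, P e ≠ 0 → inE U e) (hd : ∀ v, dv C v = dv P v) :
    ∃ s : Finset Fc, s ⊆ U ∧ ∀ e, C e + P e = bd ↑s e := by
  apply d1 U hU (fun e => C e + P e)
  · intro e he
    by_cases h1 : C e = 0
    · by_cases h2 : P e = 0
      · exact absurd (by simp [h1, h2]) he
      · exact hP e h2
    · exact isB_inE (hC e h1)
  · intro v
    rw [dv_add, hd v, z2]

/-- a face of `U` at a boundary edge, with the other one not in `U` -/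
theorem ghost {U s : Finset Fc} (hs : s ⊆ U) (v : Vx) (k : Fin 3) (hB : isB U (ed v k)) :
    ∃ l, fc v l ∈ U ∧ bd (↑s : Set Fc) (ed v k) = ind (↑s : Set Fc) (fc v l) := by
  rcases (isB_ed U v k).1 hB with ⟨h1, h2⟩ | ⟨h1, h2⟩
  · refine ⟨k + 1, h1, ?_⟩
    rw [bd_ed, ind_of_not_mem (a := fc v (k + 2)) (fun h => h2 (hs (Finset.mem_coe.1 h))), add_zero]
  · refine ⟨k + 2, h2, ?_⟩
    rw [bd_ed, ind_of_not_mem (a := fc v (k + 1)) (fun h => h1 (hs (Finset.mem_coe.1 h))), zero_add]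

theorem d2_colour (U : Finset Fc) (C P : Ed → ZMod 2) (hC : ∀ e, C e ≠ 0 → isB U e)
    (s : Finset Fc) (hsb : ∀ e, C e + P e = bd ↑s e) (S : Set Vx)
    (hS : ∀ v ∈ S, ∀ k, P (ed v k) = 0) {a b : Vx} (ha : a ∈ S)
    (hab : Relation.ReflTransGen (fun a b => b ∈ S ∧ ∃ k, b = nb a k ∧ inE U (ed a k)) a b)
    (k l : Fin 3) (hk : fc a k ∈ U) (hl : fc b l ∈ U) :
    ind (↑s : Set Fc) (fc a k) = ind (↑s : Set Fc) (fc b l) := by
  have hz : ∀ v ∈ S, ∀ k, inI U (ed v k) → bd (↑s : Set Fc) (ed v k) = 0 := by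
    intro v hv k hI
    rw [← hsb, hS v hv k, add_zero]
    by_contra hne
    exact ((isB_iff U _).1 (hC _ hne)).2 hI
  have key : ∀ b, Relation.ReflTransGen
      (fun a b => b ∈ S ∧ ∃ k, b = nb a k ∧ inE U (ed a k)) a b →
      b ∈ S ∧ ∀ l, fc b l ∈ U → ind (↑s : Set Fc) (fc b l) = ind (↑s : Set Fc) (fc a k) := by
    intro b hb
    induction hb with
    | refl => exact ⟨ha, fun l hl => col_const a (hz a ha) l k hl hk⟩
    | tail _ h2 ih =>
      rename_i c d _
      refine ⟨h2.1, fun l hl => ?_⟩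
      obtain ⟨m, hm, hE⟩ := h2.2
      -- a common face
      rcases (inE_ed U c m).1 hE with h3 | h3
      · have h4 : fc d (m + 2) = fc c (m + 1) := by rw [hm]; exact fc_nb2 c m
        rw [col_const d (hz d h2.1) l (m + 2) hl (by rw [h4]; exact h3), h4]
        exact ih.2 _ h3
      · have h4 : fc d (m + 1) = fc c (m + 2) := by rw [hm]; exact fc_nb1 c m
        rw [col_const d (hz d h2.1) l (m + 1) hl (by rw [h4]; exact h3), h4]
        exact ih.2 _ h3
  exact ((key b hab).2 l hl).symm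

theorem d2 : D2 := by
  intro U hU C P hC hP hd S hS o1 ho1 o2 ho2 hcon k1 k2 hB1 hB2
  obtain ⟨s, hs, hsb⟩ := d2_struct U hU C P hC hP hd
  obtain ⟨l1, hl1, he1⟩ := ghost hs o1 k1 hB1
  obtain ⟨l2, hl2, he2⟩ := ghost hs o2 k2 hB2
  have h1 := hsb (ed o1 k1)
  have h2 := hsb (ed o2 k2)
  rw [hS o1 ho1 k1, add_zero, he1] at h1
  rw [hS o2 ho2 k2, add_zero, he2] at h2
  rw [h1, h2]
  exact d2_colour U C P hC s hsb S hS ho1 hcon l1 l2 hl1 hl2

end Pool.Agent.H63.UC
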