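import Pool.Agent.H7.UC.Iface

set_option autoImplicit false
open Pool.Agent.H75.Perc Pool.Agent.H7.UC

/-! Chains mod 2 on the edges of the hexagonal lattice: basic lemmas. -/

namespace Pool.Agent.H63.UC

theorem z2 (a : ZMod 2) : a + a = 0 := CharTwo.add_self_eq_zero a

theorem z2_eq {a b : ZMod 2} (h : a + b = 0) : a = b := by
  have := z2 b
  calc a = a + (b + b) := by rw [this, add_zero]
    _ = (a + b) + b := by ring
    _ = b := by rw [h, zero_add]

theorem z2_or (a : ZMod 2) : a = 0 ∨ a = 1 := by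
  fin_cases a
  · left; rfl
  · right; rfl

theorem z2_ne_zero {a : ZMod 2} : a ≠ 0 ↔ a = 1 := by
  rcases z2_or a with h | h <;> simp [h]

theorem z2_ne_one {a : ZMod 2} : a ≠ 1 ↔ a = 0 := by
  rcases z2_or a with h | h <;> simp [h]

theorem f11 (k : Fin 3) : k + 1 + 1 = k + 2 := by revert k; decide
theorem f12 (k : Fin 3) : k + 1 + 2 = k := by revert k; decide
theorem f21 (k : Fin 3) : k + 2 + 1 = k := by revert k; decide
theorem f22 (k : Fin 3) : k + 2 + 2 = k + 1 := by revert k; decide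
theorem f1ne (k : Fin 3) : k + 1 ≠ k := by revert k; decide
theorem f2ne (k : Fin 3) : k + 2 ≠ k := by revert k; decide
theorem f12ne (k : Fin 3) : k + 1 ≠ k + 2 := by revert k; decide

section ind
variable {α : Type*}

theorem ind_of_mem {s : Set α} {a : α} (h : a ∈ s) : ind s a = 1 := by
  unfold ind; simp [h]

theorem ind_of_not_mem {s : Set α} {a : α} (h : a ∉ s) : ind s a = 0 := by
  unfold ind; simp [h]

theorem ind_eq_one {s : Set α} {a : α} : ind s a = 1 ↔ a ∈ s := by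
  by_cases h : a ∈ s
  · simp [ind_of_mem h, h]
  · simp [ind_of_not_mem h, h]

theorem ind_eq_zero {s : Set α} {a : α} : ind s a = 0 ↔ a ∉ s := by
  by_cases h : a ∈ s
  · simp [ind_of_mem h, h]
  · simp [ind_of_not_mem h, h]

theorem ind_congr {β : Type*} {s : Set α} {t : Set β} {a : α} {b : β} (h : a ∈ s ↔ b ∈ t) :
    ind s a = ind t b := by
  by_cases h1 : a ∈ s
  · rw [ind_of_mem h1, ind_of_mem (h.1 h1)]
  · rw [ind_of_not_mem h1, ind_of_not_mem (fun h2 => h1 (h.2 h2))]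

theorem ind_symmDiff (s t : Set α) (a : α) : ind (symmDiff s t) a = ind s a + ind t a := by
  by_cases h1 : a ∈ s <;> by_cases h2 : a ∈ t
  · rw [ind_of_mem h1, ind_of_mem h2, ind_of_not_mem, z2]
    simp [Set.mem_symmDiff, h1, h2]
  · rw [ind_of_mem h1, ind_of_not_mem h2, ind_of_mem, add_zero]
    simp [Set.mem_symmDiff, h1, h2]
  · rw [ind_of_not_mem h1, ind_of_mem h2, ind_of_mem, zero_add]
    simp [Set.mem_symmDiff, h1, h2]
  · rw [ind_of_not_mem h1, ind_of_not_mem h2, ind_of_not_mem, add_zero]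
    simp [Set.mem_symmDiff, h1, h2]

theorem ind_empty (a : α) : ind (∅ : Set α) a = 0 := ind_of_not_mem (by simp)

theorem ind_singleton_self (a : α) : ind {a} a = 1 := ind_of_mem rfl

theorem ind_singleton_ne {a b : α} (h : b ≠ a) : ind {a} b = 0 := ind_of_not_mem h

end ind

/-- the edge `ed v k` separates `fc v (k+1)` and `fc v (k+2)` -/
theorem bd_ed (s : Set Fc) (v : Vx) (k : Fin 3) :
    bd s (ed v k) = ind s (fc v (k + 1)) + ind s (fc v (k + 2)) := by
  unfold bd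
  rcases faces_ed v k with ⟨_, h1, h2⟩ | ⟨_, h1, h2⟩
  · rw [h1, h2]
  · rw [h1, h2, add_comm]

theorem inE_ed (U : Finset Fc) (v : Vx) (k : Fin 3) :
    inE U (ed v k) ↔ fc v (k + 1) ∈ U ∨ fc v (k + 2) ∈ U := by
  unfold inE
  rcases faces_ed v k with ⟨_, h1, h2⟩ | ⟨_, h1, h2⟩
  · rw [h1, h2]
  · rw [h1, h2, or_comm]

theorem inI_ed (U : Finset Fc) (v : Vx) (k : Fin 3) :
    inI U (ed v k) ↔ fc v (k + 1) ∈ U ∧ fc v (k + 2) ∈ U := by
  unfold inI
  rcases faces_ed v k with ⟨_, h1, h2⟩ | ⟨_, h1, h2⟩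
  · rw [h1, h2]
  · rw [h1, h2, and_comm]

theorem isB_ed (U : Finset Fc) (v : Vx) (k : Fin 3) :
    isB U (ed v k) ↔ (fc v (k + 1) ∈ U ∧ fc v (k + 2) ∉ U) ∨ (fc v (k + 1) ∉ U ∧ fc v (k + 2) ∈ U) := by
  unfold isB
  rcases faces_ed v k with ⟨_, h1, h2⟩ | ⟨_, h1, h2⟩
  · rw [h1, h2]
  · rw [h1, h2]
    tauto

theorem isB_iff (U : Finset Fc) (e : Ed) : isB U e ↔ inE U e ∧ ¬ inI U e := by
  unfold isB inE inI
  tauto

theorem isB_inE {U : Finset Fc} {e : Ed} (h : isB U e) : inE U e := ((isB_iff U e).1 h).1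

theorem bd_self_isB {U : Finset Fc} {e : Ed} (h : isB U e) : bd (↑U : Set Fc) e = 1 := by
  unfold bd
  rcases h with ⟨h1, h2⟩ | ⟨h1, h2⟩
  · rw [ind_of_mem (Finset.mem_coe.2 h1), ind_of_not_mem (by simpa using h2), add_zero]
  · rw [ind_of_not_mem (by simpa using h1), ind_of_mem (Finset.mem_coe.2 h2), zero_add]

/-- every edge is an edge of an up vertex -/
theorem ed_up (i j : ℤ) (k : Fin 3) : ed (i, j, false) k = (i, j, k) := by
  fin_cases k <;> rfl

theorem exists_ed (e : Ed) : ∃ v k, ed v k = e := ⟨(e.1, e.2.1, false), e.2.2, ed_up _ _ _⟩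

/-- every edge at `v` is one of the three -/
theorem dv_add (x y : Ed → ZMod 2) (v : Vx) : dv (fun e => x e + y e) v = dv x v + dv y v := by
  unfold dv; ring

theorem dv_zero (v : Vx) : dv (fun _ => 0) v = 0 := by
  unfold dv; ring

theorem bd_empty (e : Ed) : bd ∅ e = 0 := by
  unfold bd; rw [ind_empty, ind_empty, add_zero]

theorem bd_symmDiff (s t : Set Fc) (e : Ed) : bd (symmDiff s t) e = bd s e + bd t e := by
  unfold bd; rw [ind_symmDiff, ind_symmDiff]; ring

theorem dv_bd (s : Set Fc) (v : Vx) : dv (bd s) v = 0 := by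
  unfold dv
  rw [bd_ed, bd_ed, bd_ed]
  have e1 : ((0 : Fin 3) + 1) = 1 := rfl
  have e2 : ((0 : Fin 3) + 2) = 2 := rfl
  have e3 : ((1 : Fin 3) + 1) = 2 := rfl
  have e4 : ((1 : Fin 3) + 2) = 0 := rfl
  have e5 : ((2 : Fin 3) + 1) = 0 := rfl
  have e6 : ((2 : Fin 3) + 2) = 1 := rfl
  rw [e1, e2, e3, e4, e5, e6]
  have h0 := z2 (ind s (fc v 0))
  have h1 := z2 (ind s (fc v 1))
  have h2 := z2 (ind s (fc v 2))
  calc _ = (ind s (fc v 0) + ind s (fc v 0)) + (ind s (fc v 1) + ind s (fc v 1)) +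
        (ind s (fc v 2) + ind s (fc v 2)) := by ring
    _ = 0 := by rw [h0, h1, h2]; ring

/-- the support of `bd s` consists of edges of `U` if `s ⊆ U` -/
theorem bd_supp {U s : Finset Fc} (h : s ⊆ U) (e : Ed) (he : bd (↑s : Set Fc) e ≠ 0) : inE U e := by
  by_contra hc
  unfold inE at hc
  push Not at hc
  apply he
  unfold bd
  rw [ind_of_not_mem (fun h' => hc.1 (h (Finset.mem_coe.1 h'))),
    ind_of_not_mem (fun h' => hc.2 (h (Finset.mem_coe.1 h'))), add_zero]

/-- dv as a sum in any cyclic position -/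
theorem dv_eq (x : Ed → ZMod 2) (v : Vx) (k : Fin 3) :
    dv x v = x (ed v k) + x (ed v (k + 1)) + x (ed v (k + 2)) := by
  unfold dv
  fin_cases k
  · rfl
  · show x (ed v 0) + x (ed v 1) + x (ed v 2) = x (ed v 1) + x (ed v 2) + x (ed v 0)
    ring
  · show x (ed v 0) + x (ed v 1) + x (ed v 2) = x (ed v 2) + x (ed v 0) + x (ed v 1)
    ring

end Pool.Agent.H63.UC
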